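import Pool.Agent.K7.H37.UK.Stm

/-!
# Project UK, job LIFT (helper20): a fibrewise monotone change of the heights
-/

set_option autoImplicit false

noncomputable section

namespace Pool.Agent.K7.H20.UK

open Pool.Agent.K7.H37.UK

/-- the hat function of the triangular lattice -/
def lam (X Y : ℝ) : ℝ := max 0 (1 - max |X| (max |Y| |X - Y|))

theorem lam_nonneg (X Y : ℝ) : 0 ≤ lam X Y := le_max_left _ _

theorem lam_zero_of {X Y : ℝ} (h : 1 ≤ |X| ∨ 1 ≤ |Y| ∨ 1 ≤ |X - Y|) : lam X Y = 0 := by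
  unfold lam
  apply max_eq_left
  have : 1 ≤ max |X| (max |Y| |X - Y|) := by
    rcases h with h | h | h
    · exact le_max_of_le_left h
    · exact le_max_of_le_right (le_max_of_le_left h)
    · exact le_max_of_le_right (le_max_of_le_right h)
  linarith

theorem lam_continuous {T : Type} [TopologicalSpace T] {f g : T → ℝ} (hf : Continuous f)
    (hg : Continuous g) : Continuous fun x => lam (f x) (g x) := by
  unfold lam
  fun_prop

/-- the projections of the unit vectors -/
def dx : Fin 3 → ℤ := ![1, 0, -1]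

/-- the projections of the unit vectors -/
def dy : Fin 3 → ℤ := ![0, 1, -1]

theorem one_le_abs_of {x : ℝ} {m : ℤ} (hm : m ≠ 0) (h : x = m) : 1 ≤ |x| := by
  rw [h]
  exact_mod_cast Int.one_le_abs hm

/-- distance of `t` from the integers -/
theorem one_le_abs_sub {t : ℝ} (h0 : 0 ≤ t) (h1 : t ≤ 1) {m : ℤ} (hm0 : m ≠ 0) (hm1 : m ≠ 1) :
    1 ≤ |t - m| := by
  rcases le_or_gt m 0 with h | h
  · have h2 : m ≤ -1 := by omega
    have h3 : (m : ℝ) ≤ -1 := by exact_mod_cast h2
    rw [abs_of_nonneg (by linarith)]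
    linarith
  · have h2 : 2 ≤ m := by omega
    have h3 : (2 : ℝ) ≤ m := by exact_mod_cast h2
    rw [abs_of_nonpos (by linarith)]
    linarith

theorem lam_main (k : Fin 3) {t : ℝ} (h0 : 0 ≤ t) (h1 : t ≤ 1) (m n : ℤ) :
    lam (t * dx k - m) (t * dy k - n) =
      if m = 0 ∧ n = 0 then 1 - t else if m = dx k ∧ n = dy k then t else 0 := by
  fin_cases k
  · -- (1, 0)
    simp only [dx, dy, Fin.zero_eta, Matrix.cons_val_zero, Int.cast_one, mul_one, Int.cast_zero,
      mul_zero, zero_sub]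
    by_cases hn : n = 0
    · subst hn
      by_cases hm : m = 0
      · subst hm
        simp [lam, abs_of_nonneg h0, h0, h1]
      · by_cases hm1 : m = 1
        · subst hm1
          have e : |t - 1| = 1 - t := by rw [abs_of_nonpos (by linarith)]; ring
          simp [lam, e, h0, h1]
        · rw [lam_zero_of (Or.inl (one_le_abs_sub h0 h1 hm hm1))]
          simp [hm, hm1]
    · rw [lam_zero_of (Or.inr (Or.inl (one_le_abs_of (m := -n) (by omega) (by push_cast; ring))))]
      simp [hn]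
  · -- (0, 1)
    simp only [dx, dy, Fin.mk_one, Matrix.cons_val_one, Matrix.cons_val_zero, Int.cast_one, mul_one,
      Int.cast_zero, mul_zero, zero_sub]
    by_cases hm : m = 0
    · subst hm
      by_cases hn : n = 0
      · subst hn
        simp [lam, abs_of_nonneg h0, h0, h1]
      · by_cases hn1 : n = 1
        · subst hn1
          have e : |t - 1| = 1 - t := by rw [abs_of_nonpos (by linarith)]; ring
          have e2 : |1 - t| = 1 - t := abs_of_nonneg (by linarith)
          simp [lam, e, e2, h0, h1]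
        · rw [lam_zero_of (Or.inr (Or.inl (one_le_abs_sub h0 h1 hn hn1)))]
          simp [hn, hn1]
    · rw [lam_zero_of (Or.inl (one_le_abs_of (m := -m) (by omega) (by push_cast; ring)))]
      simp [hm]
  · -- (-1, -1)
    have hdx : (dx 2 : ℤ) = -1 := rfl
    have hdy : (dy 2 : ℤ) = -1 := rfl
    simp only [Fin.reduceFinMk, hdx, hdy, Int.cast_neg, Int.cast_one, mul_neg, mul_one]
    by_cases hmn : m = n
    · subst hmn
      by_cases hm : m = 0
      · subst hm
        simp [lam, abs_of_nonneg h0, h0, h1]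
      · by_cases hm1 : m = -1
        · subst hm1
          have e : |-t + 1| = 1 - t := by rw [abs_of_nonneg (by linarith)]; ring
          simp [lam, e, h0, h1]
        · have := one_le_abs_sub h0 h1 (m := -m) (by omega) (by omega)
          rw [lam_zero_of (Or.inl (by
            have e2 : |-t - (m : ℝ)| = |t - ((-m : ℤ) : ℝ)| := by
              rw [← abs_neg]; congr 1; push_cast; ring
            rw [e2]; exact this))]
          simp [hm, hm1]
    · rw [lam_zero_of (Or.inr (Or.inr (one_le_abs_of (m := n - m) (by omega) (by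
        push_cast; ring))))]
      rw [if_neg (by omega), if_neg (by omega)]

/-- projection of a lattice point -/
def prj (a : V) : ℤ × ℤ := (a 0 - a 2, a 1 - a 2)

theorem adj_cases {a b : V} (h : Adj a b) : (∃ k : Fin 3, ∀ i, b i = a i + if i = k then 1 else 0) ∨
    ∃ k : Fin 3, ∀ i, a i = b i + if i = k then 1 else 0 := by
  unfold Adj at h
  have h6 : (a 0 - b 0 = 1 ∧ a 1 - b 1 = 0 ∧ a 2 - b 2 = 0) ∨
      (a 0 - b 0 = -1 ∧ a 1 - b 1 = 0 ∧ a 2 - b 2 = 0) ∨
      (a 0 - b 0 = 0 ∧ a 1 - b 1 = 1 ∧ a 2 - b 2 = 0) ∨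
      (a 0 - b 0 = 0 ∧ a 1 - b 1 = -1 ∧ a 2 - b 2 = 0) ∨
      (a 0 - b 0 = 0 ∧ a 1 - b 1 = 0 ∧ a 2 - b 2 = 1) ∨
      (a 0 - b 0 = 0 ∧ a 1 - b 1 = 0 ∧ a 2 - b 2 = -1) := by
    rcases abs_cases (a 0 - b 0) with ⟨e0, -⟩ | ⟨e0, -⟩ <;>
    rcases abs_cases (a 1 - b 1) with ⟨e1, -⟩ | ⟨e1, -⟩ <;>
    rcases abs_cases (a 2 - b 2) with ⟨e2, -⟩ | ⟨e2, -⟩ <;>
    have h0 := abs_nonneg (a 0 - b 0) <;>
    have h1 := abs_nonneg (a 1 - b 1) <;>
    have h2 := abs_nonneg (a 2 - b 2) <;>
    omega
  rcases h6 with h | h | h | h | h | h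
  · right; refine ⟨0, fun i => ?_⟩; fin_cases i <;> simp <;> omega
  · left; refine ⟨0, fun i => ?_⟩; fin_cases i <;> simp <;> omega
  · right; refine ⟨1, fun i => ?_⟩; fin_cases i <;> simp <;> omega
  · left; refine ⟨1, fun i => ?_⟩; fin_cases i <;> simp <;> omega
  · right; refine ⟨2, fun i => ?_⟩; fin_cases i <;> simp <;> omega
  · left; refine ⟨2, fun i => ?_⟩; fin_cases i <;> simp <;> omega

/-- the shift of the heights in the fibre -/
def sh (ω : ℤ × ℤ) (X Y : ℝ) : ℝ :=
  ∑ k : Fin 3, (lam (X - ω.1 + dx k) (Y - ω.2 + dy k) - lam (X - ω.1 - dx k) (Y - ω.2 - dy k))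

theorem sh_continuous {T : Type} [TopologicalSpace T] {f g : T → ℝ} (ω : ℤ × ℤ) (hf : Continuous f)
    (hg : Continuous g) : Continuous fun x => sh ω (f x) (g x) := by
  unfold sh
  refine continuous_finsetSum _ fun k _ => ?_
  exact (lam_continuous (by fun_prop) (by fun_prop)).sub (lam_continuous (by fun_prop) (by fun_prop))

theorem sh_start (ω : ℤ × ℤ) (k : Fin 3) {t : ℝ} (h0 : 0 ≤ t) (h1 : t ≤ 1) :
    sh ω (ω.1 + t * dx k) (ω.2 + t * dy k) = -t := by
  unfold sh
  have e1 : ∀ j : Fin 3, lam ((ω.1 : ℝ) + t * dx k - ω.1 + dx j) ((ω.2 : ℝ) + t * dy k - ω.2 + dy j) =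
      0 := by
    intro j
    have := lam_main k h0 h1 (-dx j) (-dy j)
    rw [if_neg (by fin_cases j <;> simp [dx, dy]),
      if_neg (by fin_cases k <;> fin_cases j <;> simp [dx, dy])] at this
    rw [← this]
    congr 1 <;> push_cast <;> ring
  have e2 : ∀ j : Fin 3, lam ((ω.1 : ℝ) + t * dx k - ω.1 - dx j) ((ω.2 : ℝ) + t * dy k - ω.2 - dy j) =
      if j = k then t else 0 := by
    intro j
    have := lam_main k h0 h1 (dx j) (dy j)
    rw [if_neg (by fin_cases j <;> simp [dx, dy])] at this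
    rw [show ((ω.1 : ℝ) + t * dx k - ω.1 - dx j) = t * dx k - dx j by ring,
      show ((ω.2 : ℝ) + t * dy k - ω.2 - dy j) = t * dy k - dy j by ring, this]
    congr 1
    fin_cases k <;> fin_cases j <;> simp [dx, dy]
  simp only [e1, e2, zero_sub, Finset.sum_neg_distrib, Finset.sum_ite_eq', Finset.mem_univ, if_true]

theorem sh_end (ω : ℤ × ℤ) (k : Fin 3) {t : ℝ} (h0 : 0 ≤ t) (h1 : t ≤ 1) :
    sh (ω.1 + dx k, ω.2 + dy k) (ω.1 + t * dx k) (ω.2 + t * dy k) = 1 - t := by
  unfold sh
  simp only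
  have e1 : ∀ j : Fin 3, lam ((ω.1 : ℝ) + t * dx k - ((ω.1 + dx k : ℤ) : ℝ) + dx j)
      ((ω.2 : ℝ) + t * dy k - ((ω.2 + dy k : ℤ) : ℝ) + dy j) = if j = k then 1 - t else 0 := by
    intro j
    have := lam_main k h0 h1 (dx k - dx j) (dy k - dy j)
    rw [show ((ω.1 : ℝ) + t * dx k - ((ω.1 + dx k : ℤ) : ℝ) + dx j) =
        t * dx k - ((dx k - dx j : ℤ) : ℝ) by push_cast; ring,
      show ((ω.2 : ℝ) + t * dy k - ((ω.2 + dy k : ℤ) : ℝ) + dy j) =
        t * dy k - ((dy k - dy j : ℤ) : ℝ) by push_cast; ring, this]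
    by_cases hj : j = k
    · subst hj
      simp
    · rw [if_neg hj, if_neg, if_neg]
      · revert hj; fin_cases k <;> fin_cases j <;> simp [dx, dy]
      · revert hj; fin_cases k <;> fin_cases j <;> simp [dx, dy]
  have e2 : ∀ j : Fin 3, lam ((ω.1 : ℝ) + t * dx k - ((ω.1 + dx k : ℤ) : ℝ) - dx j)
      ((ω.2 : ℝ) + t * dy k - ((ω.2 + dy k : ℤ) : ℝ) - dy j) = 0 := by
    intro j
    have := lam_main k h0 h1 (dx k + dx j) (dy k + dy j)
    rw [if_neg (by fin_cases k <;> fin_cases j <;> simp [dx, dy]),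
      if_neg (by fin_cases k <;> fin_cases j <;> simp [dx, dy])] at this
    rw [← this]
    congr 1 <;> push_cast <;> ring
  simp only [e1, e2, sub_zero, Finset.sum_ite_eq', Finset.mem_univ, if_true]

/-- a continuous monotone function with prescribed values -/
theorem exists_interp (S : Finset V) (y : V → ℝ)
    (h : ∀ a ∈ S, ∀ b ∈ S, lev a < lev b → y a ≤ y b) (h' : ∀ a ∈ S, ∀ b ∈ S, lev a = lev b →
      y a = y b) :
    ∃ E : ℝ → ℝ, Continuous E ∧ Monotone E ∧ ∀ a ∈ S, E (lev a) = y a := by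
  rcases S.eq_empty_or_nonempty with rfl | hS
  · exact ⟨fun _ => 0, continuous_const, monotone_const, by simp⟩
  obtain ⟨M, hM⟩ : ∃ M : ℝ, M = 2 * ∑ a ∈ S, |y a| := ⟨_, rfl⟩
  have hM0 : 0 ≤ M := by rw [hM]; positivity
  have hMd : ∀ a ∈ S, ∀ b ∈ S, y b - y a ≤ M := by
    intro a ha b hb
    have h1 : |y a| ≤ ∑ a ∈ S, |y a| := Finset.single_le_sum (f := fun a => |y a|)
      (fun _ _ => abs_nonneg _) ha
    have h2 : |y b| ≤ ∑ a ∈ S, |y a| := Finset.single_le_sum (f := fun a => |y a|)
      (fun _ _ => abs_nonneg _) hb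
    have h3 := le_abs_self (y b)
    have h4 := neg_abs_le (y a)
    rw [hM]
    linarith
  refine ⟨fun x => S.inf' hS fun a => y a + M * max 0 (x - lev a), ?_, ?_, ?_⟩
  · refine Continuous.finset_inf'_apply hS fun a _ => ?_
    fun_prop
  · intro x x' hx
    refine Finset.le_inf' _ _ fun a ha => ?_
    refine (Finset.inf'_le _ ha).trans ?_
    gcongr
  · intro b hb
    apply le_antisymm
    · refine (Finset.inf'_le _ hb).trans ?_
      simp
    · refine Finset.le_inf' _ _ fun a ha => ?_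
      rcases lt_trichotomy (lev a) (lev b) with hl | hl | hl
      · have h1 : (1 : ℝ) ≤ lev b - lev a := by
          have : (1 : ℤ) ≤ lev b - lev a := by omega
          exact_mod_cast this
        have h2 : (lev b : ℝ) - lev a ≤ max 0 ((lev b : ℝ) - lev a) := le_max_right _ _
        have h3 : M * 1 ≤ M * max 0 ((lev b : ℝ) - lev a) :=
          mul_le_mul_of_nonneg_left (h1.trans h2) hM0
        have h4 := hMd a ha b hb
        linarith
      · rw [h' a ha b hb hl]
        have : 0 ≤ M * max 0 ((lev b : ℝ) - lev a) := mul_nonneg hM0 (le_max_left _ _)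
        linarith
      · have h1 := h b hb a ha hl
        have : 0 ≤ M * max 0 ((lev b : ℝ) - lev a) := mul_nonneg hM0 (le_max_left _ _)
        linarith

/-- the value on a positive edge -/
theorem edge {l : List V} {H : V → ℝ} {E : ℤ × ℤ → ℝ → ℝ}
    (hE : ∀ a ∈ l, E (prj a) (lev a) = H a - lev a) (a b : V) (ha : a ∈ l) (hb : b ∈ l) (k : Fin 3)
    (hk : ∀ i, b i = a i + if i = k then 1 else 0) (t : ℝ) (h0 : 0 ≤ t) (h1 : t ≤ 1) (p : ℂ × ℝ)
    (hp : p = (1 - t) • Th (pt a) + t • Th (pt b)) :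
    p.2 + ∑ ω ∈ (l.map prj).toFinset, lam (p.1.re - ω.1) (p.1.im - ω.2) *
        E ω (p.2 + sh ω p.1.re p.1.im) = (1 - t) * H a + t * H b := by
  obtain ⟨ω₀, hω₀⟩ : ∃ ω₀, ω₀ = prj a := ⟨_, rfl⟩
  have hb1 : prj b = (ω₀.1 + dx k, ω₀.2 + dy k) := by
    rw [hω₀]
    unfold prj
    rw [hk 0, hk 1, hk 2]
    fin_cases k <;> simp [dx, dy] <;> omega
  have hlb : lev b = lev a + 1 := by
    unfold lev
    rw [hk 0, hk 1, hk 2]
    fin_cases k <;> simp <;> ring
  have hre : p.1.re = ω₀.1 + t * dx k := by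
    rw [hp, hω₀]
    simp only [Th, pt, prj, Prod.smul_mk, Prod.mk_add_mk, Complex.add_re, Complex.real_smul,
      Complex.mul_re, Complex.ofReal_re, Complex.ofReal_im, zero_mul, sub_zero]
    rw [hk 0, hk 2]
    fin_cases k <;> simp [dx] <;> ring
  have him : p.1.im = ω₀.2 + t * dy k := by
    rw [hp, hω₀]
    simp only [Th, pt, prj, Prod.smul_mk, Prod.mk_add_mk, Complex.add_im, Complex.real_smul,
      Complex.mul_im, Complex.ofReal_re, Complex.ofReal_im, zero_mul, add_zero]
    rw [hk 1, hk 2]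
    fin_cases k <;> simp [dy] <;> ring
  have hh : p.2 = lev a + t := by
    rw [hp]
    simp only [Th, pt, lev, Prod.smul_mk, Prod.mk_add_mk, smul_eq_mul]
    rw [hk 0, hk 1, hk 2]
    fin_cases k <;> simp <;> ring
  have hne : prj b ≠ prj a := by
    rw [hb1, ← hω₀]
    intro h
    have h2 := congrArg Prod.fst h
    have h3 := congrArg Prod.snd h
    simp only at h2 h3
    revert h2 h3
    fin_cases k <;> simp [dx, dy]
  have hterm : ∀ ω : ℤ × ℤ, lam (p.1.re - ω.1) (p.1.im - ω.2) * E ω (p.2 + sh ω p.1.re p.1.im) =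
      (if ω = prj a then (1 - t) * (H a - lev a) else 0) +
        (if ω = prj b then t * (H b - lev b) else 0) := by
    intro ω
    have h2 := lam_main k h0 h1 (ω.1 - ω₀.1) (ω.2 - ω₀.2)
    have h3 : lam (p.1.re - ω.1) (p.1.im - ω.2) = lam (t * dx k - ((ω.1 - ω₀.1 : ℤ) : ℝ))
        (t * dy k - ((ω.2 - ω₀.2 : ℤ) : ℝ)) := by
      rw [hre, him]
      congr 1 <;> push_cast <;> ring
    rw [h3, h2]
    by_cases ha' : ω = prj a
    · have hω : ω = ω₀ := by rw [ha', hω₀]
      rw [if_pos (by rw [hω]; constructor <;> ring), if_pos ha', if_neg (by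
        intro hh; exact hne (by rw [← hh, ha'])), add_zero, ha', hre, him, hh]
      congr 1
      rw [← hω₀, sh_start ω₀ k h0 h1, hω₀]
      have : (lev a : ℝ) + t + -t = lev a := by ring
      rw [this]
      exact hE a ha
    · rw [if_neg (by
        rintro ⟨e1, e2⟩
        apply ha'
        rw [← hω₀]
        exact Prod.ext (by omega) (by omega)), if_neg ha', zero_add]
      by_cases hb' : ω = prj b
      · rw [if_pos (by rw [hb', hb1]; constructor <;> simp), if_pos hb', hb', hre, him, hh]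
        congr 1
        rw [hb1, sh_end ω₀ k h0 h1, ← hb1]
        have : (lev a : ℝ) + t + (1 - t) = lev b := by rw [hlb]; push_cast; ring
        rw [this]
        exact hE b hb
      · rw [if_neg (by
          rintro ⟨e1, e2⟩
          apply hb'
          rw [hb1]
          exact Prod.ext (by simp only; omega) (by simp only; omega)), if_neg hb', zero_mul]
  rw [Finset.sum_congr rfl fun ω _ => hterm ω, Finset.sum_add_distrib, Finset.sum_ite_eq',
    Finset.sum_ite_eq', if_pos (by simp; exact ⟨a, ha, rfl⟩), if_pos (by simp; exact ⟨b, hb, rfl⟩),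
    hh, hlb]
  push_cast
  ring

/-- Job LIFT. -/
theorem LIFT : StLift := by
  intro l H hH
  have hfib : ∀ ω : ℤ × ℤ, ∃ E : ℝ → ℝ, Continuous E ∧ Monotone E ∧
      ∀ a ∈ l.toFinset.filter (fun a => prj a = ω), E (lev a) = H a - lev a := by
    intro ω
    have hab : ∀ a b : V, prj a = ω → prj b = ω → lev a < lev b → Above a b := by
      intro a b ha hb hl
      have h2 := congrArg Prod.fst (ha.trans hb.symm)
      have h3 := congrArg Prod.snd (ha.trans hb.symm)
      simp only [prj] at h2 h3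
      unfold lev at hl
      refine ⟨b 0 - a 0, by omega, fun i => ?_⟩
      fin_cases i <;> simp <;> omega
    refine exists_interp _ _ ?_ ?_
    · intro a ha b hb hl
      simp only [Finset.mem_filter, List.mem_toFinset] at ha hb
      have := hH a ha.1 b hb.1 (hab a b ha.2 hb.2 hl)
      linarith
    · intro a ha b hb hl
      simp only [Finset.mem_filter, List.mem_toFinset] at ha hb
      have h2 := congrArg Prod.fst (ha.2.trans hb.2.symm)
      have h3 := congrArg Prod.snd (ha.2.trans hb.2.symm)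
      simp only [prj] at h2 h3
      unfold lev at hl
      have : a = b := by
        funext i
        fin_cases i <;> simp <;> omega
      rw [this]
  choose E hEc hEm hEv using hfib
  have hE : ∀ a ∈ l, E (prj a) (lev a) = H a - lev a := by
    intro a ha
    exact hEv (prj a) a (by simp [ha])
  refine ⟨fun p => ∑ ω ∈ (l.map prj).toFinset, lam (p.1.re - ω.1) (p.1.im - ω.2) *
        E ω (p.2 + sh ω p.1.re p.1.im), ?_, ?_, ?_⟩
  · refine continuous_finsetSum _ fun ω _ => ?_
    have c1 : Continuous fun p : ℂ × ℝ => p.1.re := Complex.continuous_re.comp continuous_fst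
    have c2 : Continuous fun p : ℂ × ℝ => p.1.im := Complex.continuous_im.comp continuous_fst
    refine (lam_continuous (c1.sub continuous_const) (c2.sub continuous_const)).mul ?_
    exact (hEc ω).comp (continuous_snd.add (sh_continuous ω c1 c2))
  · intro w x x' hx
    refine Finset.sum_le_sum fun ω _ => ?_
    refine mul_le_mul_of_nonneg_left ?_ (lam_nonneg _ _)
    exact hEm ω (by simpa using hx)
  · intro a ha b hb hab t h0 h1
    rcases adj_cases hab with ⟨k, hk⟩ | ⟨k, hk⟩
    · exact edge hE a b ha hb k hk t h0 h1 _ rfl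
    · have := edge hE b a hb ha k hk (1 - t) (by linarith) (by linarith)
        ((1 - t) • Th (pt a) + t • Th (pt b)) (by rw [sub_sub_cancel]; exact add_comm _ _)
      rw [this, sub_sub_cancel, add_comm]

end Pool.Agent.K7.H20.UK
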